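import Pool.Agent.HB4F.Lin

set_option autoImplicit false

/-! # Harmonic metrics for regular semisimple constant-type differentials -/

namespace Pool.Agent.HB4F

open Q198.Hit Complex Matrix Filter Topology
open scoped ContDiff ComplexOrder

variable {n : ℕ}

/-- entrywise holomorphic on `U` -/
def Hol (U : Set ℂ) (F : ℂ → Matrix (Fin n) (Fin n) ℂ) : Prop :=
  ∀ i j, DifferentiableOn ℂ (fun z => F z i j) U

theorem Hol.mul {U : Set ℂ} {F G : ℂ → Matrix (Fin n) (Fin n) ℂ} (hF : Hol U F) (hG : Hol U G) :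
    Hol U (fun z => F z * G z) := by
  intro i j
  have e : (fun z => (F z * G z) i j) = fun z => ∑ k, F z i k * G z k j := by
    funext z; rw [Matrix.mul_apply]
  rw [e]
  exact DifferentiableOn.fun_sum fun k _ => (hF i k).mul (hG k j)

theorem Hol.const (U : Set ℂ) (A : Matrix (Fin n) (Fin n) ℂ) : Hol U (fun _ => A) :=
  fun i j => differentiableOn_const (A i j)

theorem Hol.ms {U : Set ℂ} (hU : IsOpen U) {F : ℂ → Matrix (Fin n) (Fin n) ℂ} (hF : Hol U F)
    {z : ℂ} (hz : z ∈ U) : MS F z := by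
  intro i j
  have h1 : ContDiffAt ℂ ∞ (fun w => F w i j) z :=
    (hF i j).contDiffOn hU |>.contDiffAt (hU.mem_nhds hz)
  exact h1.restrict_scalars ℝ

theorem Hol.mdzbar {U : Set ℂ} (hU : IsOpen U) {F : ℂ → Matrix (Fin n) (Fin n) ℂ} (hF : Hol U F)
    {z : ℂ} (hz : z ∈ U) : mdzbar F z = 0 := by
  ext i j
  simp only [Q198.Hit.mdzbar, Matrix.of_apply, Matrix.zero_apply]
  exact dzbar_holo ((hF i j).differentiableAt (hU.mem_nhds hz)).hasDerivAt

/-- the entrywise complex derivative -/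
noncomputable def dF (F : ℂ → Matrix (Fin n) (Fin n) ℂ) (z : ℂ) : Matrix (Fin n) (Fin n) ℂ :=
  Matrix.of fun i j => deriv (fun w => F w i j) z

theorem Hol.dF {U : Set ℂ} (hU : IsOpen U) {F : ℂ → Matrix (Fin n) (Fin n) ℂ} (hF : Hol U F) :
    Hol U (dF F) := fun i j => (hF i j).deriv hU

theorem Hol.mdz {U : Set ℂ} (hU : IsOpen U) {F : ℂ → Matrix (Fin n) (Fin n) ℂ} (hF : Hol U F)
    {z : ℂ} (hz : z ∈ U) : mdz F z = Pool.Agent.HB4F.dF F z := by
  ext i j
  simp only [Q198.Hit.mdz, Pool.Agent.HB4F.dF, Matrix.of_apply]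
  exact dz_holo ((hF i j).differentiableAt (hU.mem_nhds hz)).hasDerivAt

/-- a flat metric `Bᴴ B` with `B` holomorphic invertible and `Φ = s • B⁻¹ D B`, `D` constant
diagonal, is harmonic -/
theorem flat_metric {U : Set ℂ} (hU : IsOpen U) {B C : ℂ → Matrix (Fin n) (Fin n) ℂ}
    (hB : Hol U B) (hC : Hol U C) (hBC : ∀ z ∈ U, B z * C z = 1) {Φ : ℂ → Matrix (Fin n) (Fin n) ℂ}
    {s : ℂ → ℂ} {d : Fin n → ℂ} (hΦ : ∀ z ∈ U, Φ z = s z • (C z * Matrix.diagonal d * B z)) :
    IsHarmonicMetric U Φ (fun z => (B z)ᴴ * B z) := by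
  have hCB : ∀ z ∈ U, C z * B z = 1 := fun z hz => mul_eq_one_comm.1 (hBC z hz)
  have hinv : ∀ z ∈ U, ((B z)ᴴ * B z)⁻¹ = C z * (C z)ᴴ := by
    intro z hz
    refine Matrix.inv_eq_right_inv ?_
    calc (B z)ᴴ * B z * (C z * (C z)ᴴ) = (B z)ᴴ * (B z * C z) * (C z)ᴴ := by
          simp only [Matrix.mul_assoc]
      _ = 1 := by
          rw [hBC z hz, Matrix.mul_one, ← Matrix.conjTranspose_mul, hCB z hz,
            Matrix.conjTranspose_one]
  have hstar : ∀ z ∈ U, (C z)ᴴ * (B z)ᴴ = 1 := by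
    intro z hz
    rw [← Matrix.conjTranspose_mul, hBC z hz, Matrix.conjTranspose_one]
  refine ⟨fun i j z hz => ?_, fun z hz => ?_, fun z hz => ?_⟩
  · have h1 : MS (fun z => (B z)ᴴ * B z) z := (hB.ms hU hz).conjTranspose.mul (hB.ms hU hz)
    exact (h1 i j).contDiffWithinAt
  · refine Matrix.PosDef.conjTranspose_mul_self _ ?_
    rw [Matrix.mulVec_injective_iff_isUnit]
    exact IsUnit.of_mul_eq_one _ (hBC z hz)
  · -- the Chern connection form is holomorphic
    have e1 : ∀ w ∈ U, ((B w)ᴴ * B w)⁻¹ * mdz (fun z => (B z)ᴴ * B z) w = C w * dF B w := by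
      intro w hw
      have h2 : mdz (fun z => (B z)ᴴ * B z) w = (B w)ᴴ * dF B w := by
        rw [mdz_eq_mDD, mDD_mul (hB.ms hU hw).conjTranspose (hB.ms hU hw), ← mdz_eq_mDD,
          mdz_conjTranspose (hB.ms hU hw), hB.mdzbar hU hw, Matrix.conjTranspose_zero,
          Matrix.zero_mul, zero_add, hB.mdz hU hw]
      rw [h2, hinv w hw]
      calc C w * (C w)ᴴ * ((B w)ᴴ * dF B w) = C w * ((C w)ᴴ * (B w)ᴴ) * dF B w := by
            simp only [Matrix.mul_assoc]
        _ = C w * dF B w := by rw [hstar w hw, Matrix.mul_one]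
    have e2 : mdzbar (fun w => ((B w)ᴴ * B w)⁻¹ * mdz (fun z => (B z)ᴴ * B z) w) z = 0 := by
      have h3 : (fun w => ((B w)ᴴ * B w)⁻¹ * mdz (fun z => (B z)ᴴ * B z) w) =ᶠ[𝓝 z]
          fun w => C w * dF B w := by
        filter_upwards [hU.mem_nhds hz] with w hw
        exact e1 w hw
      rw [mdzbar_eq_mDD, mDD_congr h3, ← mdzbar_eq_mDD]
      exact (hC.mul (hB.dF hU)).mdzbar hU hz
    rw [e2]
    have e3 : adj ((B z)ᴴ * B z) (Φ z) =
        star (s z) • (C z * (Matrix.diagonal d)ᴴ * B z) := by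
      rw [adj, hinv z hz, hΦ z hz, Matrix.conjTranspose_smul, Matrix.conjTranspose_mul,
        Matrix.conjTranspose_mul, Matrix.mul_smul, Matrix.smul_mul]
      congr 1
      calc C z * (C z)ᴴ * ((B z)ᴴ * ((Matrix.diagonal d)ᴴ * (C z)ᴴ)) * ((B z)ᴴ * B z)
          = C z * ((C z)ᴴ * (B z)ᴴ) * (Matrix.diagonal d)ᴴ * ((C z)ᴴ * (B z)ᴴ) * B z := by
            simp only [Matrix.mul_assoc]
        _ = _ := by rw [hstar z hz, Matrix.mul_one, Matrix.mul_one]
    rw [e3, hΦ z hz]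
    have key : ∀ X Y : Matrix (Fin n) (Fin n) ℂ,
        (C z * X * B z) * (C z * Y * B z) = C z * (X * Y) * B z := by
      intro X Y
      calc (C z * X * B z) * (C z * Y * B z) = C z * X * (B z * C z) * Y * B z := by
            simp only [Matrix.mul_assoc]
        _ = _ := by rw [hBC z hz, Matrix.mul_one]; simp only [Matrix.mul_assoc]
    rw [Matrix.smul_mul, Matrix.mul_smul, Matrix.smul_mul, Matrix.mul_smul, key, key,
      Matrix.diagonal_conjTranspose, Matrix.diagonal_mul_diagonal, Matrix.diagonal_mul_diagonal,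
      smul_smul, smul_smul, mul_comm (star (s z))]
    have : (fun i => d i * star d i) = fun i => star d i * d i := by
      funext i; exact mul_comm _ _
    rw [this, sub_self]

/-- General existence theorem. -/
theorem exists_metric {U : Set ℂ} (hU : IsOpen U) {κ σ : ℂ → ℂ}
    (hκ : DifferentiableOn ℂ κ U) (hκ0 : ∀ z ∈ U, κ z ≠ 0)
    (hσ : DifferentiableOn ℂ σ U) (hσ0 : ∀ z ∈ U, σ z ≠ 0)
    (c : ℕ → ℂ) (h : (sectionMatrix n c).charpoly.Separable) :
    ∃ H, IsHarmonicMetric U (higgs n κ (fun j z => c j / (κ z * σ z) ^ j)) H := by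
  obtain ⟨P, d, hP, hPd⟩ := diag_of_separable _ h
  have hdet : IsUnit P.det := (Matrix.isUnit_iff_isUnit_det _).1 hP
  have hPi : P * P⁻¹ = 1 := Matrix.mul_nonsing_inv _ hdet
  have hiP : P⁻¹ * P = 1 := Matrix.nonsing_inv_mul _ hdet
  have hΘ : sectionMatrix n c = P * Matrix.diagonal d * P⁻¹ := by
    rw [← hPd, Matrix.mul_assoc, hPi, Matrix.mul_one]
  set w : ℂ → ℂ := fun z => κ z * σ z with hw
  have hw0 : ∀ z ∈ U, w z ≠ 0 := fun z hz => mul_ne_zero (hκ0 z hz) (hσ0 z hz)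
  have hwd : DifferentiableOn ℂ w U := hκ.mul hσ
  have hDg : ∀ f : ℂ → ℂ, DifferentiableOn ℂ f U → Hol U (fun z => Dg n (f z)) := by
    intro f hf i j
    by_cases hij : i = j
    · subst hij
      have e : (fun z => Dg n (f z) i i) = fun z => f z ^ (i : ℕ) := by
        funext z; rw [Dg, Matrix.diagonal_apply_eq]
      rw [e]
      exact hf.pow _
    · have e : (fun z => Dg n (f z) i j) = fun z => 0 := by
        funext z; rw [Dg, Matrix.diagonal_apply_ne _ hij]
      rw [e]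
      exact differentiableOn_const 0
  refine ⟨fun z => (P⁻¹ * Dg n (w z)⁻¹)ᴴ * (P⁻¹ * Dg n (w z)⁻¹), ?_⟩
  refine flat_metric (B := fun z => P⁻¹ * Dg n (w z)⁻¹) (C := fun z => Dg n (w z) * P)
    (s := fun z => (σ z)⁻¹) (d := d) hU
    ((Hol.const U _).mul (hDg (fun z => (w z)⁻¹) (hwd.inv hw0)))
    ((hDg w hwd).mul (Hol.const U _)) ?_ ?_
  · intro z hz
    calc P⁻¹ * Dg n (w z)⁻¹ * (Dg n (w z) * P) = P⁻¹ * (Dg n (w z)⁻¹ * Dg n (w z)) * P := by
          simp only [Matrix.mul_assoc]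
      _ = 1 := by rw [Dg_inv_mul (hw0 z hz), Matrix.mul_one, hiP]
  · intro z hz
    have h1 := section_gauge (n := n) (hw0 z hz) c
    have h2 : higgs n κ (fun j z => c j / (κ z * σ z) ^ j) z =
        (σ z)⁻¹ • (w z • sectionMatrix n (fun j => c j / w z ^ j)) := by
      rw [higgs, smul_smul, hw]
      congr 1
      have := hσ0 z hz
      field_simp
    rw [h2, h1, hΘ]
    congr 1
    simp only [Matrix.mul_assoc]

end Pool.Agent.HB4F
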