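import Pool.Graph.R_pool_sql_team_seeded_3997aac3.Q198.Hit.Main

set_option autoImplicit false

/-! # The matrices of the Hitchin section are regular -/

namespace Pool.Agent.HB4F

open Q198.Hit Matrix Polynomial

variable {m : ℕ}

/-- the first column of the powers of an unreduced Hessenberg matrix -/
theorem pow_col (c : ℕ → ℂ) (k : ℕ) (i : Fin (m + 1)) (hki : k ≤ (i : ℕ)) :
    (sectionMatrix (m + 1) c ^ k) i 0 = if (i : ℕ) = k then 1 else 0 := by
  induction k generalizing i with
  | zero =>
    rw [pow_zero, Matrix.one_apply]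
    by_cases h : i = 0
    · subst h; simp
    · rw [if_neg h, if_neg]
      intro h'; exact h (Fin.ext (by simpa using h'))
  | succ k ih =>
    rw [pow_succ', Matrix.mul_apply]
    have hi : (i : ℕ) < m + 1 := i.2
    rw [Finset.sum_eq_single (⟨(i : ℕ) - 1, by omega⟩ : Fin (m + 1))]
    · rw [ih _ (by simp only; omega)]
      simp only [sectionMatrix]
      rw [if_pos (by omega), one_mul]
      by_cases h : (i : ℕ) = k + 1
      · rw [if_pos h, if_pos (by omega)]
      · rw [if_neg h, if_neg (by omega)]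
    · intro j _ hj
      by_cases h : (i : ℕ) = (j : ℕ) + 1
      · exfalso; exact hj (Fin.ext (by simp only; omega))
      · simp only [sectionMatrix]
        rw [if_neg h]
        by_cases h2 : (i : ℕ) < j
        · rw [if_pos h2, ih j (by omega), if_neg (by omega), mul_zero]
        · rw [if_neg h2, zero_mul]
    · intro h; exact absurd (Finset.mem_univ _) h

/-- a monic polynomial of degree at most `m` does not annihilate a section matrix of size `m + 1` -/
theorem aeval_ne_zero (c : ℕ → ℂ) (p : ℂ[X]) (hp : p.Monic) (hd : p.natDegree ≤ m) :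
    aeval (sectionMatrix (m + 1) c) p ≠ 0 := by
  intro h
  have hcol : ∀ k ≤ p.natDegree, (sectionMatrix (m + 1) c ^ k)
      (⟨p.natDegree, by omega⟩ : Fin (m + 1)) 0 = if p.natDegree = k then 1 else 0 :=
    fun k hk => pow_col c k ⟨p.natDegree, by omega⟩ hk
  have h1 : (aeval (sectionMatrix (m + 1) c) p) (⟨p.natDegree, by omega⟩ : Fin (m + 1)) 0 = 1 := by
    rw [aeval_eq_sum_range, Matrix.sum_apply, Finset.sum_eq_single p.natDegree]
    · rw [Matrix.smul_apply, hp.coeff_natDegree, one_smul]
      exact (hcol _ le_rfl).trans (if_pos rfl)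
    · intro k hk hne
      rw [Finset.mem_range] at hk
      rw [Matrix.smul_apply]
      have h2 := (hcol k (by omega)).trans (if_neg (Ne.symm hne))
      rw [h2, smul_zero]
    · intro hk
      exact absurd (Finset.mem_range.2 (Nat.lt_succ_self _)) hk
  rw [h] at h1
  simp at h1

/-- an inseparable characteristic polynomial gives a Jordan chain -/
theorem chain_of_not_separable (c : ℕ → ℂ) (h : ¬ (sectionMatrix (m + 1) c).charpoly.Separable) :
    ∃ (l : ℂ) (u : Fin (m + 1) → ℂ),
      (sectionMatrix (m + 1) c - l • (1 : Matrix (Fin (m + 1)) (Fin (m + 1)) ℂ)) *ᵥ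
        ((sectionMatrix (m + 1) c - l • (1 : Matrix (Fin (m + 1)) (Fin (m + 1)) ℂ)) *ᵥ u) = 0 ∧
      (sectionMatrix (m + 1) c - l • (1 : Matrix (Fin (m + 1)) (Fin (m + 1)) ℂ)) *ᵥ u ≠ 0 := by
  classical
  set Θ := sectionMatrix (m + 1) c with hΘ
  have hmon : Θ.charpoly.Monic := Θ.charpoly_monic
  have h0 : Θ.charpoly ≠ 0 := hmon.ne_zero
  rw [← nodup_roots_iff_of_splits h0 (IsAlgClosed.splits _), Multiset.nodup_iff_count_le_one] at h
  push Not at h
  obtain ⟨l, hl⟩ := h
  rw [count_roots] at hl
  have hdvd : (X - C l) ^ 2 ∣ Θ.charpoly := by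
    rw [← le_rootMultiplicity_iff h0]
    omega
  obtain ⟨g, hg⟩ := hdvd
  have hgm : g.Monic := by
    have : ((X - C l) ^ 2 : ℂ[X]).Monic := (monic_X_sub_C l).pow 2
    exact this.of_mul_monic_left (hg ▸ hmon)
  set p : ℂ[X] := (X - C l) * g with hp
  have hpm : p.Monic := (monic_X_sub_C l).mul hgm
  have hchar : Θ.charpoly = (X - C l) * p := by rw [hg, hp]; ring
  have hdeg : p.natDegree ≤ m := by
    have h1 : Θ.charpoly.natDegree = m + 1 := by
      rw [Matrix.charpoly_natDegree_eq_dim, Fintype.card_fin]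
    rw [hchar, (monic_X_sub_C l).natDegree_mul hpm, natDegree_X_sub_C] at h1
    omega
  have hne := aeval_ne_zero c p hpm hdeg
  rw [← hΘ] at hne
  have hN : aeval Θ (X - C l : ℂ[X]) = Θ - l • (1 : Matrix (Fin (m + 1)) (Fin (m + 1)) ℂ) := by
    rw [map_sub, aeval_X, aeval_C, Algebra.algebraMap_eq_smul_one]
  have hpa : aeval Θ p = (Θ - l • (1 : Matrix (Fin (m + 1)) (Fin (m + 1)) ℂ)) * aeval Θ g := by
    rw [hp, map_mul, hN]
  have hca : (Θ - l • (1 : Matrix (Fin (m + 1)) (Fin (m + 1)) ℂ)) * aeval Θ p = 0 := by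
    rw [← hN, ← map_mul, ← hchar]
    exact Matrix.aeval_self_charpoly Θ
  obtain ⟨v, hv⟩ : ∃ v, aeval Θ p *ᵥ v ≠ 0 := by
    by_contra hcon
    push Not at hcon
    apply hne
    ext i j
    have := congrFun (hcon (Pi.single j 1)) i
    simpa using this
  have e1 : (Θ - l • (1 : Matrix (Fin (m + 1)) (Fin (m + 1)) ℂ)) *ᵥ (aeval Θ g *ᵥ v) =
      aeval Θ p *ᵥ v := by rw [Matrix.mulVec_mulVec, ← hpa]
  refine ⟨l, aeval Θ g *ᵥ v, ?_, ?_⟩
  · rw [e1, Matrix.mulVec_mulVec, hca, Matrix.zero_mulVec]
  · rw [e1]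
    exact hv

/-- a separable characteristic polynomial gives a diagonalization -/
theorem diag_of_separable {n : ℕ} (A : Matrix (Fin n) (Fin n) ℂ) (h : A.charpoly.Separable) :
    ∃ (P : Matrix (Fin n) (Fin n) ℂ) (d : Fin n → ℂ), IsUnit P ∧ A * P = P * Matrix.diagonal d := by
  classical
  have h0 : A.charpoly ≠ 0 := A.charpoly_monic.ne_zero
  have hnd := (nodup_roots_iff_of_splits h0 (IsAlgClosed.splits _)).2 h
  have hcard : A.charpoly.roots.toFinset.card = n := by
    rw [Multiset.toFinset_card_of_nodup hnd, IsAlgClosed.card_roots_eq_natDegree,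
      Matrix.charpoly_natDegree_eq_dim, Fintype.card_fin]
  set e := A.charpoly.roots.toFinset.equivFinOfCardEq hcard with he
  set d : Fin n → ℂ := fun i => (e.symm i : ℂ) with hd
  have hdinj : Function.Injective d := fun i j hij => e.symm.injective (Subtype.ext hij)
  have hroot : ∀ i, A.charpoly.IsRoot (d i) := by
    intro i
    have := (e.symm i).2
    rw [Multiset.mem_toFinset, mem_roots h0] at this
    exact this
  have hev : ∀ i, ∃ v : Fin n → ℂ, Module.End.HasEigenvector (Matrix.toLin' A) (d i) v := by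
    intro i
    have h1 : Module.End.HasEigenvalue (Matrix.toLin' A) (d i) := by
      rw [Module.End.hasEigenvalue_iff_isRoot_charpoly, Matrix.charpoly_toLin']
      exact hroot i
    exact h1.exists_hasEigenvector
  choose v hv using hev
  have hli := Module.End.eigenvectors_linearIndependent' (Matrix.toLin' A) d hdinj v hv
  refine ⟨Matrix.of fun i j => v j i, d, ?_, ?_⟩
  · rw [← Matrix.linearIndependent_cols_iff_isUnit]
    exact hli
  · ext i j
    rw [Matrix.mul_apply, Matrix.mul_diagonal]
    have := congrFun (hv j).apply_eq_smul i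
    simp only [Matrix.toLin'_apply, Matrix.mulVec, dotProduct, Pi.smul_apply, smul_eq_mul] at this
    simp only [Matrix.of_apply]
    rw [this, mul_comm]

end Pool.Agent.HB4F
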